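import Pool.Agent.TH766.PSec.Core

/-!
# The weak `p`-adic section conjecture for ramified quadratic twists

Let `k` be a finite extension of `ℚ_p`, `p` odd, or more generally the field of fractions of a
henselian discrete valuation ring `A` of characteristic zero with finite residue field of odd
characteristic.  Let `f` be a polynomial over `A` of even degree `2g + 2 ≥ 4` whose reduction is
separable of the same degree, so that the curve `y² = f(x)` of genus `g` has good reduction, and let
`a` be an element of `k` of odd valuation.  Let `X` be the curve `a y² = f(x)`, a ramified quadratic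
twist, and let `U` be `X` or any open subcurve.

We prove that every section `s` of `π₁(U) → G_k` looks like the section of a rational point: there is a
root `b ∈ A` of `f`, so that `(b, 0)` is a rational point of `X`, such that `s` lifts to the étale
double covers `r(b) z² = r(x)` of `X`, for all factors `r` of `f` of even degree with coefficients
in `k` and with `r(b) ≠ 0`; these are the twists of the covers given by the function `r(x)` that have
a rational point above `(b, 0)`.  In particular, if `f` has no root in the residue field then the
fundamental groups of `X` and of all its open subcurves do not have a section; they have a section if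
and only if `X` has a rational point.

The fundamental group is described through valuations.  Let `U` be a smooth geometrically connected
curve over `k` with function field `F`, let `Ω` be an algebraic closure of `F`, and let `F_U` be the
maximal extension of `F` inside `Ω` which is unramified over the closed points of `U`, that is, over
their local rings, which are valuation rings of `F`.  Then `π₁(U) = Gal(F_U/F)`, and the map
`π₁(U) → G_k` is the restriction of automorphisms to the algebraic closure of `k` in `Ω`.

Proof.  The local theorem is `Pool.Agent.W623.SecG.secloc2`: by Kummer theory for the section over an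
unramified extension `S` of `k`, the valuations modulo 2 of the constants `c(θ, θ')` in `S` for which
`c(θ, θ') (x - θ)/(x - θ')` is the square of a function fixed by the section are a function on pairs of
roots of `f`; the quotients of `X` and of its double covers which are elliptic curves show that this
function belongs to one root of `f`, which Frobenius must fix; and the same curves control the residue
classes of the constants.  Hensel's lemma gives the root `b` and the square roots.
-/

open Polynomial

namespace Pool.Agent.Results.MP_c385f6_ag.RamifiedQuadraticTwists

universe u v w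

section definitions

variable (k : Type u) (F : Type v) (Ω : Type w) [Field k] [Field F] [Field Ω] [Algebra k F]
  [Algebra F Ω] [Algebra k Ω]

/-- The inertia group of the valuation ring `W` of `Ω`, as a subgroup of `Gal(Ω/F)`: the
automorphisms of `Ω` over `F` that map `W` onto itself and act as the identity on its residue
field. -/
noncomputable def inertia (W : ValuationSubring Ω) : Subgroup (Ω ≃ₐ[F] Ω) :=
  (W.inertiaSubgroup F).map (W.decompositionSubgroup F).subtype

/-- `F_U`, for a set `U` of valuation rings of `F`: the elements of `Ω` fixed by the inertia groups
of all valuation rings `W` of `Ω` with `W ∩ F ∈ U`.  If `Ω` is an algebraic closure of a field `F`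
of characteristic zero, this is the maximal extension of `F` in `Ω` unramified over `U`. -/
noncomputable def unramified (U : Set (ValuationSubring F)) : IntermediateField F Ω :=
  ⨅ W : {W : ValuationSubring Ω // W.comap (algebraMap F Ω) ∈ U},
    IntermediateField.fixedField (inertia F Ω W.1)

/-- The map `τ : M → M` acts as `σ : K → K` on the elements that the fields `K` and `M` have in
common when they are regarded as subfields of `Ω` through `i` and `j`. -/
def ActsAs {K M Ω : Type*} [Field K] [Field M] [Field Ω] (i : K →+* Ω) (j : M →+* Ω) (σ : K → K)
    (τ : M → M) : Prop :=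
  ∀ c z, j z = i c → j (τ z) = i (σ c)

/-- Let `k ⊆ K ⊆ Ω` and `F ⊆ M ⊆ Ω` be fields.  A splitting of `Gal(M/F) → Gal(K/k)`: a continuous
homomorphism `s` from `Gal(K/k)` to `Gal(M/F)` such that `s(σ)` acts as `σ` on the elements of
`K ∩ M`. -/
structure Splitting (K M : Type*) [Field K] [Field M] [Algebra k K] [Algebra F M] [Algebra K Ω]
    [Algebra M Ω] where
  /-- the homomorphism `Gal(K/k) → Gal(M/F)` -/
  toHom : (K ≃ₐ[k] K) →* (M ≃ₐ[F] M)
  cont : Continuous toHom
  compat : ∀ σ : K ≃ₐ[k] K, ActsAs (algebraMap K Ω) (algebraMap M Ω) σ (toHom σ)

/-- The sections of `π₁(U) = Gal(F_U/F) → G_k`: the continuous homomorphisms `s` from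
`G_k = Gal(k̄/k)` to `Gal(F_U/F)`, where `k̄` is the algebraic closure of `k` in `Ω`, such that
`s(σ)` acts as `σ` on the elements of `k̄`. -/
abbrev GaloisSection (U : Set (ValuationSubring F)) : Type w :=
  Splitting k F Ω (algebraicClosure k Ω) (unramified F Ω U)

end definitions

/-- The element `a` of the field of fractions `k` of the discrete valuation ring `A` has odd
valuation. -/
def OddValuation (A : Type u) {k : Type u} [CommRing A] [Field k] [Algebra A k] (a : k) : Prop :=
  ∃ (t ϖ : A) (m : ℤ), IsUnit t ∧ Irreducible ϖ ∧ Odd m ∧
    a = algebraMap A k t * algebraMap A k ϖ ^ m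

/-- The section `s` lifts to the étale double cover of the curve with function field `F ∋ x` obtained
by adjoining a square root of `r(b) r(x)`: this function has a square root in `M = F_U` which is
fixed by the image of `s`. -/
def LiftsTo {k F Ω K M : Type*} [Field k] [Field F] [Field Ω] [Algebra k F] [Algebra F Ω]
    [Algebra k Ω] [Field K] [Field M] [Algebra k K] [Algebra F M] [Algebra K Ω] [Algebra M Ω]
    (s : Splitting k F Ω K M) (x : F) (r : k[X]) (b : k) : Prop :=
  ∃ z : M, (∀ σ, s.toHom σ z = z) ∧
    z ^ 2 = algebraMap F M (algebraMap k F (r.eval b) * aeval x r)

/-- The polynomial `f` over the local ring `A` has even degree `≥ 4`, a unit as leading coefficient, and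
separable reduction: the hyperelliptic curve `y² = f(x)` has good reduction if `2` is a unit. -/
def GoodReduction {A : Type u} [CommRing A] [IsLocalRing A] (f : A[X]) : Prop :=
  IsUnit f.leadingCoeff ∧ Even f.natDegree ∧ 4 ≤ f.natDegree ∧
    (f.map (IsLocalRing.residue A)).Separable

/-- For the section `s` there is a root `b` of `f` in `A` such that `s` lifts to the étale double covers
`r(b) z² = r(x)` for all factors `r` of `f` over `k` of even degree with `r(b) ≠ 0`. -/
def HasRoot {A k F Ω K M : Type*} [CommRing A] [Field k] [Algebra A k] [Field F] [Field Ω]
    [Algebra k F] [Algebra F Ω] [Algebra k Ω] [Field K] [Field M] [Algebra k K] [Algebra F M]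
    [Algebra K Ω] [Algebra M Ω] (f : A[X]) (x : F) (s : Splitting k F Ω K M) : Prop :=
  ∃ b : A, f.eval b = 0 ∧ ∀ r : k[X], r ∣ f.map (algebraMap A k) → Even r.natDegree →
    r.eval (algebraMap A k b) ≠ 0 → LiftsTo s x r (algebraMap A k b)

/-- Let `F` be the function field of the curve `a y² = f(x)` (or any extension of `k` with a generic
point `(x, y)` of this curve), let `Ω` be an algebraic closure of `F`, and let `U` be a set of
valuation rings of `F` over `k`, for instance given by the smooth projective curve or an open
subcurve.  Then for all sections `s` of `π₁(U) → G_k` there is a root of `f` as above. -/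
def SectionsHaveRoots {A k : Type u} [CommRing A] [Field k] [Algebra A k] (f : A[X]) (a : k) :
    Prop :=
  ∀ (F : Type v) (Ω : Type w) [Field F] [Field Ω] [Algebra k F] [Algebra F Ω] [Algebra k Ω]
    [IsScalarTower k F Ω] [IsAlgClosure F Ω] (x y : F) (U : Set (ValuationSubring F)),
    Transcendental k x → algebraMap k F a * y ^ 2 = aeval x (f.map (algebraMap A k)) →
    (∀ O ∈ U, ∀ c : k, algebraMap k F c ∈ O) → ∀ s : GaloisSection k F Ω U, HasRoot f x s

/-- **The weak section conjecture for ramified quadratic twists.**  Let `A` be a henselian discrete
valuation ring with finite residue field of odd characteristic and with field of fractions `k` of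
characteristic zero, let `f ∈ A[x]` be a polynomial of even degree `≥ 4` with separable reduction of
the same degree, and let `a ∈ k` have odd valuation.  Then for every section `s` of `π₁(U) → G_k`,
where `U` is the curve `a y² = f(x)` or an open subcurve, `f` has a root `b` in `A`, and so the curve
has the rational point `(b, 0)`, such that `s` lifts to the étale double covers `r(b) z² = r(x)` for
all factors `r ∈ k[x]` of `f` of even degree with `r(b) ≠ 0`. -/
theorem result {A k : Type u} [CommRing A] [IsDomain A] [IsDiscreteValuationRing A]
    [HenselianLocalRing A] [Finite (IsLocalRing.ResidueField A)] [Field k] [Algebra A k]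
    [IsFractionRing A k] [CharZero k] (h2 : IsUnit (2 : A)) (f : A[X]) (hf : GoodReduction f)
    (a : k) (ha : OddValuation A a) : SectionsHaveRoots.{u, v, w} f a := by
  intro F Ω _ _ _ _ _ _ _ x y U hx hxy hU s
  have hac : IsAlgClosed Ω := IsAlgClosure.isAlgClosed F
  have halg : Algebra.IsAlgebraic F Ω := IsAlgClosure.isAlgebraic
  obtain ⟨t, ϖ, m, ht, hϖ, hm, ha⟩ := ha
  obtain ⟨hlc, hev, h4, hs⟩ := hf
  obtain ⟨b, hb, h⟩ := Pool.Agent.TH766.PSec.core h2 f hlc hev h4 hs a t ϖ m ht hϖ hm ha x y hx hxy
    U hU (⟨s.toHom, s.cont, s.compat⟩ : Pool.Agent.W620.SC.GSection k F Ω U)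
  refine ⟨b, hb, fun r hr hre hrb => ?_⟩
  obtain ⟨z, hz, hz2⟩ := h r hr hre hrb
  exact ⟨z, hz, Subtype.ext hz2⟩

end Pool.Agent.Results.MP_c385f6_ag.RamifiedQuadraticTwists
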