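import Pool.Agent.TH377.LocG.Res
import Pool.Agent.TH377.Sup.Val

/-!
# Superelliptic curves without sections over `p`-adic fields, exponents divisible by `p` included

Let `k` be a finite extension of `ℚ_p`, or more generally the field of fractions of characteristic
zero of a discrete valuation ring `A` with finite residue field of characteristic `p`.  Let `d ≥ 2` be
a natural number, which may be divisible by `p`.  Let `f_i ∈ A[x]` be finitely many polynomials
with leading coefficients in `Aˣ` such that the reduction of `∏ f_i` is separable and the degrees of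
all its irreducible factors are divisible by `d`, if `d` is odd, and by `2d`, if `d` is even, and let
`a ∈ k` have a valuation that is not divisible by `d`.  We prove that for all `n ≥ 1` divisible by `d`
the curve

  `a yⁿ = ∏ f_i(x)^(e_i)`

has no point over `k`, and that no quotient of its fundamental group, or of the absolute Galois group
of its function field `F`, through which the following quotient factors has a section: let `M` be
generated over `F` by the algebraic closure `k̄` of `k` and by the roots of order `d` of the functions
`(x - θ)/(x - θ')`, `θ` and `θ'` being roots of `∏ f_i`.  The group `Gal(M/F k̄)` is abelian of exponent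
`d`.  If the `e_i` are prime to `d`, then `M` is unramified over the curve, and so the fundamental
groups of the curve, of its open subcurves and of all smooth curves that dominate it have no
sections.  For these curves the existence of sections and of rational points are equivalent, as
the section conjecture predicts.  For instance, for all odd `p` the curve `p y^p = x^p - x - 1` over
`ℚ_p` has no section.

If `d` is prime to `p`, the statement on the full fundamental group is also a consequence of the
theorem of Stix that a section forces the index of a `p`-adic curve to be a power of `p`, as the index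
of the curve is not prime to `d`.  If `d` is a power of `p`, the index may be a power of `p`, as it is
in the example, and that theorem does not apply; this case seems to be new, and also the statement
on the quotient `Gal(M/F)`.

The fundamental group is described through valuations.  Let `U` be a smooth geometrically connected
curve over `k` with function field `F`, let `Ω` be an algebraic closure of `F`, and let `F_U` be the
maximal extension of `F` inside `Ω` which is unramified over the closed points of `U`, that is, over
their local rings, which are valuation rings of `F`.  Then `π₁(U) = Gal(F_U/F)`, and the map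
`π₁(U) → G_k` is the restriction of automorphisms to the algebraic closure of `k` in `Ω`.

Proof (`Pool.Agent.TH377.LocG`).  Let `s` be a section, and let `S` be the field generated by the roots
`θ` of `∏ f_i`; it is unramified over `k`.  By Kummer theory (Hilbert 90 for the action of `G_S` through
`s`) the functions `(x - θ)/(x - θ')` are `c(θ, θ') β^d` with a constant `c(θ, θ')` in `S` and `β` fixed
by `s(G_S)`, and `w(θ, θ') = v(c(θ, θ'))` is well-defined modulo `d`, additive, and invariant under the
decomposition group of a place above `A`.  The equation of the curve shows that the sum over `θ` of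
the `e_θ w(θ, θ')` is `v(a)` modulo `d`.  On the other hand the sum over the roots `θ` that reduce to
the roots of one irreducible factor is `0` modulo `d`, as the number of these `θ` is divisible by `d`
or `2d`.
-/

open Polynomial

namespace Pool.Agent.Results.MP_c385f6_ag.SuperellipticCurves

universe u v w

section definitions

variable (k : Type u) (F : Type v) (Ω : Type w) [Field k] [Field F] [Field Ω] [Algebra k F]
  [Algebra F Ω] [Algebra k Ω]

/-- The inertia group of the valuation ring `W` of `Ω`, as a subgroup of `Gal(Ω/F)`: the
automorphisms of `Ω` over `F` that map `W` onto itself and act as the identity on its residue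
field. -/
noncomputable def inertia (W : ValuationSubring Ω) : Subgroup (Ω ≃ₐ[F] Ω) :=
  (W.inertiaSubgroup F).map (W.decompositionSubgroup F).subtype

/-- `F_U`, for a set `U` of valuation rings of `F`: the elements of `Ω` fixed by the inertia groups
of all valuation rings `W` of `Ω` with `W ∩ F ∈ U`.  If `Ω` is an algebraic closure of a field `F`
of characteristic zero, this is the maximal extension of `F` in `Ω` unramified over `U`. -/
noncomputable def unramified (U : Set (ValuationSubring F)) : IntermediateField F Ω :=
  ⨅ W : {W : ValuationSubring Ω // W.comap (algebraMap F Ω) ∈ U},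
    IntermediateField.fixedField (inertia F Ω W.1)

/-- The map `τ : M → M` acts as `σ : K → K` on the elements that the fields `K` and `M` have in
common when they are regarded as subfields of `Ω` through `i` and `j`. -/
def ActsAs {K M Ω : Type*} [Field K] [Field M] [Field Ω] (i : K →+* Ω) (j : M →+* Ω) (σ : K → K)
    (τ : M → M) : Prop :=
  ∀ c z, j z = i c → j (τ z) = i (σ c)

/-- Let `k ⊆ K ⊆ Ω` and `F ⊆ M ⊆ Ω` be fields.  A splitting of `Gal(M/F) → Gal(K/k)`: a continuous
homomorphism `s` from `Gal(K/k)` to `Gal(M/F)` such that `s(σ)` acts as `σ` on the elements of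
`K ∩ M`. -/
structure Splitting (K M : Type*) [Field K] [Field M] [Algebra k K] [Algebra F M] [Algebra K Ω]
    [Algebra M Ω] where
  /-- the homomorphism `Gal(K/k) → Gal(M/F)` -/
  toHom : (K ≃ₐ[k] K) →* (M ≃ₐ[F] M)
  cont : Continuous toHom
  compat : ∀ σ : K ≃ₐ[k] K, ActsAs (algebraMap K Ω) (algebraMap M Ω) σ (toHom σ)

/-- The sections of `π₁(U) = Gal(F_U/F) → G_k`: the continuous homomorphisms `s` from
`G_k = Gal(k̄/k)` to `Gal(F_U/F)`, where `k̄` is the algebraic closure of `k` in `Ω`, such that
`s(σ)` acts as `σ` on the elements of `k̄`. -/
def GaloisSection (U : Set (ValuationSubring F)) : Type w :=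
  Splitting k F Ω (algebraicClosure k Ω) (unramified F Ω U)

end definitions

/-- The smooth projective curve with the affine equation `a yⁿ = f(x)` has no point over `k`: neither
over the affine line, nor at infinity, where the points over `k` correspond to the solutions of
`a r^g = c` with `g = gcd(n, deg f)` and `c` the leading coefficient of `f`.  (If `f` has no root in
`k`, then all points over the affine line are given by solutions of the affine equation.) -/
def NoPoint {k : Type u} [Field k] (n : ℕ) (a : k) (f : k[X]) : Prop :=
  (¬ ∃ x y : k, a * y ^ n = f.eval x) ∧ ¬ ∃ r : k, a * r ^ Nat.gcd n f.natDegree = f.leadingCoeff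

/-- Let `F` be any field over `k` that contains a point `(x, y)` of the curve `a yⁿ = f(x)`, for
instance the function field of the curve, and let `Ω` be an algebraic closure of `F`.  Then for
every set `U` of valuation rings of `F` over `k` there is no section of `π₁(U) → G_k`.  If `F` is the
function field of the curve, such `U` are given by the smooth projective curve and by all its open
subcurves. -/
def NoSection {k : Type u} [Field k] (n : ℕ) (a : k) (f : k[X]) : Prop :=
  ∀ (F : Type v) (Ω : Type w) [Field F] [Field Ω] [Algebra k F] [Algebra F Ω] [Algebra k Ω]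
    [IsScalarTower k F Ω] [IsAlgClosure F Ω] (x y : F) (U : Set (ValuationSubring F)),
    algebraMap k F a * y ^ n = aeval x f → (∀ O ∈ U, ∀ c : k, algebraMap k F c ∈ O) →
      IsEmpty (GaloisSection k F Ω U)

/-- The extension `M` of `F` in `Ω` contains the algebraic closure of `k` and, for all roots `θ`, `θ'`
of the polynomial `P`, a root of order `d` of `(x - θ)/(x - θ')`. -/
def ContainsRoots {k : Type u} {F : Type v} {Ω : Type w} [Field k] [Field F] [Field Ω]
    [Algebra k F] [Algebra F Ω] [Algebra k Ω] (d : ℕ) (P : k[X]) (x : F)
    (M : IntermediateField F Ω) : Prop :=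
  (∀ c : algebraicClosure k Ω, (c : Ω) ∈ M) ∧ ∀ θ θ' : Ω, aeval θ P = 0 → aeval θ' P = 0 →
    ∃ z ∈ M, z ^ d = (algebraMap F Ω x - θ) / (algebraMap F Ω x - θ')

/-- Let `F` be any field over `k` that contains a point `(x, y)` of the curve `a yⁿ = f(x)` and let
`Ω` be an algebraic closure of `F`.  If the extension `M` of `F` in `Ω` contains the algebraic closure
of `k` and the roots of order `d` of the functions `(x - θ)/(x - θ')`, then there is no section of
`Gal(M/F) → G_k`. -/
def NoKummerSection {k : Type u} [Field k] (d n : ℕ) (a : k) (P f : k[X]) : Prop :=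
  ∀ (F : Type v) (Ω : Type w) [Field F] [Field Ω] [Algebra k F] [Algebra F Ω] [Algebra k Ω]
    [IsScalarTower k F Ω] [IsAlgClosure F Ω] (x y : F) (M : IntermediateField F Ω),
    algebraMap k F a * y ^ n = aeval x f → ContainsRoots d P x M →
      IsEmpty (Splitting k F Ω (algebraicClosure k Ω) M)

/-- The conditions on the `f_i`: the leading coefficients are units, the reduction of `∏ f_i` is
separable, and the degrees of all its irreducible factors are divisible by `d` if `d` is odd, and by
`2d` if `d` is even. -/
def Admissible {A : Type u} [CommRing A] [IsLocalRing A] (d : ℕ) {I : Type} [Fintype I]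
    (f : I → A[X]) : Prop :=
  (∀ i, IsUnit (f i).leadingCoeff) ∧ ((∏ i, f i).map (IsLocalRing.residue A)).Separable ∧
    ∀ g : (IsLocalRing.ResidueField A)[X], Irreducible g →
      g ∣ (∏ i, f i).map (IsLocalRing.residue A) → Nat.gcd 2 d * d ∣ g.natDegree

/-- The valuation of `a` is not divisible by `d`: it is `m` for `a = t ϖᵐ`, `t` a unit and `ϖ` a
uniformiser of `A`. -/
def ValuationNotDivisible (A : Type u) {k : Type u} [CommRing A] [Field k] [Algebra A k] (d : ℕ)
    (a : k) : Prop :=
  ∃ (t ϖ : A) (m : ℤ), IsUnit t ∧ Irreducible ϖ ∧ ¬ (d : ℤ) ∣ m ∧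
    a = algebraMap A k t * algebraMap A k ϖ ^ m

/-- All the assertions for the curve `a yⁿ = ∏ f_i(x)^(e_i)` and the exponent `d`. -/
def NothingAt {k : Type u} [Field k] {I : Type} [Fintype I] (d n : ℕ) (a : k) (f : I → k[X])
    (e : I → ℕ) : Prop :=
  NoPoint n a (∏ i, f i ^ e i) ∧
    NoKummerSection.{u, v, w} d n a (∏ i, f i) (∏ i, f i ^ e i) ∧
    ((∀ i, Nat.Coprime d (e i)) → NoSection.{u, v, w} n a (∏ i, f i ^ e i))

section proof

variable {A k : Type u} [CommRing A] [IsDomain A] [IsDiscreteValuationRing A]
  [Finite (IsLocalRing.ResidueField A)] [Field k] [Algebra A k] [IsFractionRing A k] [CharZero k]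

/-- there are such polynomials of all degrees -/
lemma exists_adm (d : ℕ) (hd : 3 ≤ d) :
    ∃ f : A[X], f.Monic ∧ f.natDegree = d ∧
      Irreducible (f.map (IsLocalRing.residue A)) := by
  classical
  set κ := IsLocalRing.ResidueField A
  have h1 := Pool.Agent.TH377.Sup.irr_card κ d hd
  have hq : 2 ≤ Nat.card κ := Finite.one_lt_card
  have hpos : 0 < (Nat.card κ - 1) * Nat.card κ ^ d :=
    Nat.mul_pos (by omega) (pow_pos (by omega) _)
  have hne : (Pool.Agent.TH377.Sup.Irr κ d).Nonempty := by
    rw [Set.nonempty_iff_ne_empty]
    intro h0
    rw [h0, Set.ncard_empty, mul_zero] at h1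
    omega
  obtain ⟨c, hc0, hc⟩ := hne
  have hdeg := Pool.Agent.TH377.Sup.pol_natDegree c hc0
  set g := Pool.Agent.TH377.Sup.pol c with hg
  have hmon : (g * C g.leadingCoeff⁻¹).Monic := monic_mul_leadingCoeff_inv hc.ne_zero
  have hlc0 : g.leadingCoeff⁻¹ ≠ 0 := inv_ne_zero (leadingCoeff_ne_zero.2 hc.ne_zero)
  have hirr : Irreducible (g * C g.leadingCoeff⁻¹) :=
    (irreducible_mul_isUnit (isUnit_C.2 hlc0.isUnit)).2 hc
  obtain ⟨f, hf1, hf2, hf3⟩ := Polynomial.lifts_and_natDegree_eq_and_monic
    (f := IsLocalRing.residue A) (p := g * C g.leadingCoeff⁻¹)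
    ((mem_lifts _).2 (Polynomial.map_surjective _ IsLocalRing.residue_surjective _)) hmon
  refine ⟨f, hf3, ?_, by rw [hf1]; exact hirr⟩
  rw [hf2, natDegree_mul_C hlc0, hdeg]

end proof

/-- Let `A` be a discrete valuation ring with finite residue field and with field of fractions `k` of
characteristic zero, for instance the ring of integers of a finite extension `k` of `ℚ_p`, and let
`d ≥ 2`; `d` may be divisible by the residue characteristic.  Let the polynomials `f_i ∈ A[x]` satisfy
the conditions `Admissible` and let the valuation of `a ∈ k` be not divisible by `d`.  Then for all `n`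
divisible by `d` the curve `a yⁿ = ∏ f_i(x)^(e_i)` has no point over `k` and there is no section of
`Gal(M/F) → G_k` for any extension `M` of its function field `F` that contains the algebraic closure
of `k` and the roots of order `d` of the functions `(x - θ)/(x - θ')`.  If the `e_i` are prime to `d`,
the fundamental groups of the curve, of its open subcurves and of all smooth curves over `k` that
dominate it have no sections.  For every `D ≥ 1` divisible by `d`, if `d` is odd, and by `2d`, if `d` is
even, there is a polynomial `f` of degree `D` that satisfies the conditions. -/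
theorem result {A k : Type u} [CommRing A] [IsDomain A] [IsDiscreteValuationRing A]
    [Finite (IsLocalRing.ResidueField A)] [Field k] [Algebra A k] [IsFractionRing A k] [CharZero k]
    (d : ℕ) (hd : 2 ≤ d) :
    (∀ (I : Type) [Fintype I] (f : I → A[X]) (e : I → ℕ) (a : k) (n : ℕ), Admissible d f →
      ValuationNotDivisible A d a → d ∣ n →
      NothingAt.{u, v, w} d n a (fun i => (f i).map (algebraMap A k)) e) ∧
    ∀ D : ℕ, 1 ≤ D → Nat.gcd 2 d * d ∣ D → ∃ f : A[X], f.Monic ∧ f.natDegree = D ∧
      Admissible d (fun _ : Unit => f) := by
  have hd0 : 0 < d := by omega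
  refine ⟨?_, ?_⟩
  · intro I _ f e a n hf ha hdn
    obtain ⟨hlc, hs, hirr⟩ := hf
    obtain ⟨t, ϖ, m, ht, hϖ, hm, ha'⟩ := ha
    have hρ : Function.Surjective (IsLocalRing.residue A) := IsLocalRing.residue_surjective
    have h1 : ∏ i, (f i).map (algebraMap A k) ^ e i = (∏ i, f i ^ e i).map (algebraMap A k) := by
      rw [Polynomial.map_prod]
      exact Finset.prod_congr rfl fun i _ => (Polynomial.map_pow _ _).symm
    have h2 : ∏ i, (f i).map (algebraMap A k) = (∏ i, f i).map (algebraMap A k) :=
      (Polynomial.map_prod _ _ _).symm
    unfold NothingAt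
    rw [h1, h2]
    refine ⟨⟨?_, ?_⟩, ?_, ?_⟩
    · rintro ⟨x, y, hxy⟩
      exact Pool.Agent.TH377.LocG.res_P _ hρ d hd0 f e hlc hs hirr ϖ hϖ a t ht m hm ha' n hdn x y
        hxy
    · rintro ⟨r, hr⟩
      exact Pool.Agent.TH377.LocG.res_inf _ hρ d hd0 f e hlc hs hirr ϖ hϖ a t ht m hm ha' n hdn r
        hr
    · intro F Ω _ _ _ _ _ _ _ x y M hxy hM
      have hcl : IsAlgClosed Ω := IsAlgClosure.isAlgClosed F
      have halg : Algebra.IsAlgebraic F Ω := IsAlgClosure.isAlgebraic
      have h := Pool.Agent.TH377.LocG.res_M (F := F) (Ω := Ω) _ hρ d hd0 f e hlc hs hirr ϖ hϖ a t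
        ht m hm ha' n hdn M hM.1 x y hxy hM.2
      exact ⟨fun s => h.false ⟨s.toHom, s.cont, fun σ c z hz => s.compat σ c z hz⟩⟩
    · intro he F Ω _ _ _ _ _ _ _ x y U hxy hU
      have hcl : IsAlgClosed Ω := IsAlgClosure.isAlgClosed F
      have halg : Algebra.IsAlgebraic F Ω := IsAlgClosure.isAlgebraic
      have h := Pool.Agent.TH377.LocG.res_U (F := F) (Ω := Ω) _ hρ d hd0 f e hlc hs hirr ϖ hϖ a t
        ht m hm ha' n hdn he U hU x y hxy
      exact ⟨fun s => h.false ⟨s.toHom, s.cont, s.compat⟩⟩
  · intro D hD hdD
    have hD3 : 3 ≤ D := by
      have h1 : d ∣ D := (Dvd.intro_left _ rfl).trans hdD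
      rcases Nat.lt_or_ge d 3 with h | h
      · have h2 : d = 2 := by omega
        subst h2
        have h3 := Nat.le_of_dvd (by omega) hdD
        simp at h3
        omega
      · exact h.trans (Nat.le_of_dvd (by omega) h1)
    obtain ⟨f, hf1, hf2, hf3⟩ := exists_adm (A := A) D hD3
    have hprod : ∏ _i : Unit, f = f := by simp
    refine ⟨f, hf1, hf2, fun _ => ?_, ?_, ?_⟩
    · rw [hf1.leadingCoeff]
      exact isUnit_one
    · rw [hprod]
      have hperf : PerfectField (IsLocalRing.ResidueField A) := inferInstance
      exact PerfectField.separable_of_irreducible hf3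
    · intro g hg hgd
      rw [hprod] at hgd
      have h1 : Associated g (f.map (IsLocalRing.residue A)) := hg.associated_of_dvd hf3 hgd
      rw [natDegree_eq_of_degree_eq (degree_eq_degree_of_associated h1), hf1.natDegree_map, hf2]
      exact hdD

end Pool.Agent.Results.MP_c385f6_ag.SuperellipticCurves
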